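import Pool.Agent.Helper35.IL.Stm
import Pool.Agent.Helper35.EM.Model
import Mathlib.RingTheory.AlgebraicIndependent.AlgebraicClosure

/-! Project IL, package DG: independence in degree at most `D`. -/

set_option autoImplicit false

namespace Pool.Agent.Helper28.IL

open Pool.Agent.Helper35.EM Pool.Agent.Helper56.SA Pool.Agent.Helper56.EM Pool.Agent.Helper56.NL
  Pool.Agent.Helper56.HS Pool.Agent.Helper35.IL Module Submodule Set ComplexConjugate

theorem free_indep {t : ℕ → ℂ} (ht : Free t) (n : ℕ) : M.Indep (t '' Iio n) := by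
  induction n with
  | zero =>
    have e : t '' Iio 0 = ∅ := by simp
    rw [e]
    exact M.empty_indep
  | succ n ih =>
    have e : (Iio (n + 1) : Set ℕ) = insert n (Iio n) := by
      ext k
      simp only [mem_Iio, mem_insert_iff]
      omega
    rw [e, image_insert_eq]
    exact ((ih.notMem_closure_iff (by trivial)).1 (ht n)).1

theorem free_inj {t : ℕ → ℂ} (ht : Free t) : Function.Injective t := by
  have h : ∀ m n, m < n → t m ≠ t n := by
    intro m n hmn h
    apply ht n
    rw [← h]
    exact M.subset_closure _ (fun _ _ => trivial) ⟨m, hmn, rfl⟩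
  intro m n hmn
  by_contra hne
  rcases lt_or_gt_of_ne hne with h1 | h1
  · exact h m n h1 hmn
  · exact h n m h1 hmn.symm

theorem free_alg {t : ℕ → ℂ} (ht : Free t) (L : ℕ) :
    AlgebraicIndependent ℚ fun l : Fin L => t l := by
  have hinj : Function.Injective fun l : Fin L => t l := fun a b h => Fin.ext (free_inj ht h)
  refine (algebraicIndependent_subtype_range hinj).1 ?_
  have e : range (fun l : Fin L => t l) = t '' Iio L := by
    ext z
    constructor
    · rintro ⟨l, rfl⟩
      exact ⟨l, l.2, rfl⟩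
    · rintro ⟨k, hk, rfl⟩
      exact ⟨⟨k, hk⟩, rfl⟩
  rw [e]
  exact free_indep ht L

instance kk_isAlg : Algebra.IsAlgebraic ℚ kk := by
  constructor
  intro x
  have h : IsAlgebraic ℚ (x : ℂ) := mem_cl_empty.1 (kk_mem.1 x.2)
  exact (isAlgebraic_algHom_iff kk.val kk.val.injective).1 h

theorem free_alg_kk {t : ℕ → ℂ} (ht : Free t) (L : ℕ) :
    AlgebraicIndependent kk fun l : Fin L => t l :=
  (free_alg ht L).extendScalars kk

theorem trans_kk {p : ℂ} (hp : p ∉ M.closure ∅) : Transcendental kk p := by
  intro h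
  have hint : IsIntegral kk p := h.isIntegral
  have h1 := IsAlgClosed.degree_eq_one_of_irreducible kk (minpoly.irreducible hint)
  have h2 := minpoly.mem_range_of_degree_eq_one kk p h1
  obtain ⟨x, hx⟩ := h2
  apply hp
  rw [← hx]
  exact kk_mem.1 x.2

/-- powers of a transcendental number -/
theorem pow_indep {p : ℂ} (hp : p ∉ M.closure ∅) : LinearIndependent kk fun k : ℕ => p ^ k := by
  have h1 := (Polynomial.basisMonomials kk).linearIndependent
  have h2 := h1.map' (Polynomial.aeval p : Polynomial kk →ₐ[kk] ℂ).toLinearMap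
    (LinearMap.ker_eq_bot.2 (transcendental_iff_injective.1 (trans_kk hp)))
  have e : (⇑(Polynomial.aeval p : Polynomial kk →ₐ[kk] ℂ).toLinearMap ∘
      ⇑(Polynomial.basisMonomials kk)) = fun k : ℕ => p ^ k := by
    funext k
    simp [Polynomial.coe_basisMonomials]
  rw [e] at h2
  exact h2

/-- rational combinations -/
theorem comb_indep {N n : ℕ} {v : Fin N → ℂ} (hv : LinearIndependent kk v)
    {c : Fin n → (Fin N → ℚ)} (hc : LinearIndependent ℚ c) :
    LinearIndependent kk fun a => ∑ i, ((c a i : ℚ) : ℂ) * v i := by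
  have hinj := linearIndependent_iff_injective_fintypeLinearCombination.1 hc
  obtain ⟨T, hT⟩ := LinearMap.exists_leftInverse_of_injective (Fintype.linearCombination ℚ c)
    (LinearMap.ker_eq_bot.2 hinj)
  have hTc : ∀ a b, ∑ i, c a i * T (Pi.single i 1) b = if a = b then 1 else 0 := by
    intro a b
    have h1 : T (c a) = Pi.single a 1 := by
      have h2 := LinearMap.congr_fun hT (Pi.single a 1)
      have h3 : Fintype.linearCombination ℚ c (Pi.single a 1) = c a := by
        simp [Fintype.linearCombination_apply, Pi.single_apply]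
      rw [LinearMap.comp_apply, h3] at h2
      exact h2
    have h4 : c a = ∑ i, c a i • (Pi.single i (1 : ℚ) : Fin N → ℚ) := by
      funext j
      simp [Finset.sum_apply, Pi.single_apply]
    have h5 : T (c a) b = ∑ i, c a i * T (Pi.single i 1) b := by
      conv_lhs => rw [h4]
      rw [map_sum, Finset.sum_apply]
      refine Finset.sum_congr rfl fun i _ => ?_
      rw [map_smul, Pi.smul_apply, smul_eq_mul]
    rw [← h5, h1, Pi.single_apply]
    by_cases h : a = b
    · simp [h]
    · simp [h, Ne.symm h]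
  rw [Fintype.linearIndependent_iff]
  intro β hβ b
  have h1 : ∑ i, (∑ a, β a * algebraMap ℚ kk (c a i)) • v i = 0 := by
    rw [← hβ]
    simp only [Finset.sum_smul, Finset.smul_sum]
    rw [Finset.sum_comm]
    refine Finset.sum_congr rfl fun a _ => Finset.sum_congr rfl fun i _ => ?_
    rw [Algebra.smul_def, Algebra.smul_def, map_mul]
    have : algebraMap kk ℂ (algebraMap ℚ kk (c a i)) = ((c a i : ℚ) : ℂ) := by
      rw [← IsScalarTower.algebraMap_apply]
      rfl
    rw [this, mul_assoc]
  have h2 := Fintype.linearIndependent_iff.1 hv _ h1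
  have h3 : ∑ i, (∑ a, β a * algebraMap ℚ kk (c a i)) * algebraMap ℚ kk (T (Pi.single i 1) b) = 0 := by
    refine Finset.sum_eq_zero fun i _ => ?_
    rw [h2 i, zero_mul]
  have h4 : ∑ i, (∑ a, β a * algebraMap ℚ kk (c a i)) * algebraMap ℚ kk (T (Pi.single i 1) b) =
      ∑ a, β a * algebraMap ℚ kk (∑ i, c a i * T (Pi.single i 1) b) := by
    simp only [Finset.sum_mul, map_sum, Finset.mul_sum, map_mul]
    rw [Finset.sum_comm]
    refine Finset.sum_congr rfl fun a _ => Finset.sum_congr rfl fun i _ => ?_
    ring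
  rw [h4] at h3
  simp only [hTc] at h3
  simpa using h3

theorem dg : S_DG := by
  intro hdeg D hD r hr s hs ε hε N n c hc f hfa hf0 hfD h0
  set L : ℕ := (Finset.univ.sup fun i : Fin N => r ((i : ℕ) + 1)) + 1 with hL
  have hLr : ∀ i : Fin N, r ((i : ℕ) + 1) ≤ L := fun i =>
    (Finset.le_sup (f := fun i : Fin N => r ((i : ℕ) + 1)) (Finset.mem_univ i)).trans (Nat.le_succ _)
  have hr1 : ∀ i : ℕ, 1 ≤ r (i + 1) := by
    intro i
    induction i with
    | zero => rw [hr.one]
    | succ i ih => exact ih.trans (hr.mono _)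
  have hg : ∀ k, 0 < g D k := by
    intro k
    induction k with
    | zero => exact Nat.one_pos
    | succ k ih => exact Nat.mul_pos ih (Nat.pow_pos (Nat.succ_pos D))
  have hgs : StrictMono (g D) := by
    apply strictMono_nat_of_lt_succ
    intro k
    have h1 : 1 < (D + 1) ^ (k + 1) := Nat.one_lt_pow (Nat.succ_ne_zero k) (by omega)
    change g D k < g D k * (D + 1) ^ (k + 1)
    exact (Nat.lt_mul_iff_one_lt_right (hg k)).2 h1
  -- the coefficients
  have hεk : ∀ i, ∃ e : kk, (e : ℂ) = ε i ∧ e ≠ 0 := by
    intro i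
    rcases hε i with h | h
    · exact ⟨1, by rw [h]; rfl, one_ne_zero⟩
    · have hI : Complex.I ∈ kk := by
        rw [kk_mem, mem_cl_empty]
        refine ⟨Polynomial.X ^ 2 + 1, ?_, ?_⟩
        · intro h
          have := congrArg (Polynomial.eval 0) h
          simp at this
        · simp
      refine ⟨⟨Complex.I, hI⟩, h.symm, ?_⟩
      intro h
      exact Complex.I_ne_zero (congrArg Subtype.val h)
  choose e' he' he0 using hεk
  -- the polynomial over `kk`
  obtain ⟨f', hf'⟩ : ∃ f' : MvPolynomial (Fin n) kk, MvPolynomial.map (algebraMap kk ℂ) f' = f := by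
    refine ⟨∑ m ∈ f.support, MvPolynomial.monomial m (⟨f.coeff m, kk_mem.2 (mem_cl_empty.2 (hfa m))⟩ : kk), ?_⟩
    rw [map_sum]
    conv_rhs => rw [f.as_sum]
    refine Finset.sum_congr rfl fun m _ => ?_
    rw [MvPolynomial.map_monomial]
    rfl
  have hf'0 : f' ≠ 0 := by
    rintro rfl
    exact hf0 (by rw [← hf', map_zero])
  have hf'D : f'.totalDegree ≤ D := by
    have h1 : f'.totalDegree = f.totalDegree := by
      rw [← hf']
      unfold MvPolynomial.totalDegree
      rw [MvPolynomial.support_map_of_injective _ (algebraMap kk ℂ).injective]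
    rw [h1]
    exact hfD
  -- the polynomials in the free variables
  let Y : Fin N → MvPolynomial (Fin L) kk := fun i =>
    MvPolynomial.C (e' i) * ∑ l : Fin L, if (l : ℕ) < r ((i : ℕ) + 1) then MvPolynomial.X l ^ g D i else 0
  let P : MvPolynomial (Fin L) kk :=
    MvPolynomial.aeval (fun a => ∑ i, MvPolynomial.C (algebraMap ℚ kk (c a i)) * Y i) f'
  have hP : MvPolynomial.aeval (fun l : Fin L => (s l : ℂ)) P = 0 := by
    have h1 : MvPolynomial.aeval (fun l : Fin L => (s l : ℂ)) P =
        MvPolynomial.aeval (fun a => ∑ i : Fin N, (c a i : ℂ) * yy r (g D) s ε i) f' := by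
      have h2 : ((MvPolynomial.aeval (fun l : Fin L => (s l : ℂ))).comp
          (MvPolynomial.aeval (fun a => ∑ i, MvPolynomial.C (algebraMap ℚ kk (c a i)) * Y i)) :
            MvPolynomial (Fin n) kk →ₐ[kk] ℂ) =
          MvPolynomial.aeval (fun a => ∑ i : Fin N, (c a i : ℂ) * yy r (g D) s ε i) := by
        refine MvPolynomial.algHom_ext fun a => ?_
        rw [AlgHom.comp_apply, MvPolynomial.aeval_X, MvPolynomial.aeval_X, map_sum]
        refine Finset.sum_congr rfl fun i _ => ?_
        rw [map_mul, MvPolynomial.aeval_C]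
        have h3 : algebraMap kk ℂ (algebraMap ℚ kk (c a i)) = ((c a i : ℚ) : ℂ) := by
          rw [← IsScalarTower.algebraMap_apply]
          rfl
        rw [h3]
        congr 1
        simp only [Y]
        rw [map_mul, MvPolynomial.aeval_C, map_sum]
        unfold yy
        have h4 : algebraMap kk ℂ (e' i) = ε i := he' i
        rw [h4]
        congr 1
        have h5 : ∀ l : Fin L, (MvPolynomial.aeval (fun l : Fin L => (s l : ℂ)))
            (if (l : ℕ) < r ((i : ℕ) + 1) then MvPolynomial.X l ^ g D i else (0 : MvPolynomial (Fin L) kk)) =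
            if (l : ℕ) < r ((i : ℕ) + 1) then (s l : ℂ) ^ g D i else 0 := by
          intro l
          split_ifs with h
          · rw [map_pow, MvPolynomial.aeval_X]
          · rw [map_zero]
        simp only [h5]
        rw [Fin.sum_univ_eq_sum_range (fun l : ℕ => if l < r ((i : ℕ) + 1) then (s l : ℂ) ^ g D i else 0) L,
          ← Finset.sum_filter]
        refine Finset.sum_congr ?_ fun _ _ => rfl
        ext l
        simp only [Finset.mem_filter, Finset.mem_range]
        have := hLr i
        constructor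
        · exact fun h => h.2
        · exact fun h => ⟨lt_of_lt_of_le h this, h⟩
      exact AlgHom.congr_fun h2 f'
    rw [h1]
    rw [← hf'] at h0
    rw [MvPolynomial.eval_map] at h0
    rw [MvPolynomial.aeval_def]
    exact h0
  have hP0 : P = 0 := by
    have h1 := free_alg_kk (t := fun k => (s k : ℂ)) hs.free L
    exact h1 (by rw [hP, map_zero])
  -- the specialisation
  have hp : (s 0 : ℂ) ∉ M.closure ∅ := by
    have h1 := hs.free 0
    have e : (fun k => (s k : ℂ)) '' Iio 0 = ∅ := by simp
    rw [e] at h1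
    exact h1
  have hsp : MvPolynomial.aeval (fun l : Fin L => if (l : ℕ) = 0 then (s 0 : ℂ) else 0) P =
      MvPolynomial.aeval (fun a => ∑ i : Fin N, (c a i : ℂ) * (ε i * (s 0 : ℂ) ^ g D i)) f' := by
    have h2 : ((MvPolynomial.aeval (fun l : Fin L => if (l : ℕ) = 0 then (s 0 : ℂ) else 0)).comp
        (MvPolynomial.aeval (fun a => ∑ i, MvPolynomial.C (algebraMap ℚ kk (c a i)) * Y i)) :
          MvPolynomial (Fin n) kk →ₐ[kk] ℂ) =
        MvPolynomial.aeval (fun a => ∑ i : Fin N, (c a i : ℂ) * (ε i * (s 0 : ℂ) ^ g D i)) := by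
      refine MvPolynomial.algHom_ext fun a => ?_
      rw [AlgHom.comp_apply, MvPolynomial.aeval_X, MvPolynomial.aeval_X, map_sum]
      refine Finset.sum_congr rfl fun i _ => ?_
      rw [map_mul, MvPolynomial.aeval_C]
      have h3 : algebraMap kk ℂ (algebraMap ℚ kk (c a i)) = ((c a i : ℚ) : ℂ) := by
        rw [← IsScalarTower.algebraMap_apply]
        rfl
      rw [h3]
      congr 1
      simp only [Y]
      rw [map_mul, MvPolynomial.aeval_C, map_sum]
      have h4 : algebraMap kk ℂ (e' i) = ε i := he' i
      rw [h4]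
      congr 1
      rw [Finset.sum_eq_single (⟨0, by omega⟩ : Fin L)]
      · have h6 : ((⟨0, by omega⟩ : Fin L) : ℕ) < r ((i : ℕ) + 1) := hr1 i
        rw [if_pos h6, map_pow, MvPolynomial.aeval_X, if_pos rfl]
      · intro l _ hl
        split_ifs with h
        · rw [map_pow, MvPolynomial.aeval_X, if_neg (fun h' => hl (Fin.ext h')), zero_pow (hg i).ne']
        · rw [map_zero]
      · intro h
        exact absurd (Finset.mem_univ _) h
    exact AlgHom.congr_fun h2 f'
  rw [hP0, map_zero] at hsp
  -- the contradiction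
  have hpow : LinearIndependent kk fun i : Fin N => (s 0 : ℂ) ^ g D i :=
    (pow_indep hp).comp (fun i : Fin N => g D i) (fun a b h => Fin.ext (hgs.injective h))
  have hv : LinearIndependent kk fun i : Fin N => ε i * (s 0 : ℂ) ^ g D i := by
    have h1 := hpow.units_smul (fun i : Fin N => Units.mk0 (e' i) (he0 i))
    have e : ((fun i : Fin N => Units.mk0 (e' i) (he0 i)) • fun i : Fin N => (s 0 : ℂ) ^ g D i) =
        fun i : Fin N => ε i * (s 0 : ℂ) ^ g D i := by
      funext i
      rw [Pi.smul_apply', Units.smul_def, Units.val_mk0, Algebra.smul_def, ← he' i]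
      rfl
    rw [e] at h1
    exact h1
  refine hdeg D (s 0) hp n _ ?_ (comb_indep hv hc) f' hf'0 hf'D hsp.symm
  intro a
  refine Submodule.sum_mem _ fun i _ => ?_
  have h1 : (c a i : ℂ) * (ε i * (s 0 : ℂ) ^ g D i) =
      (algebraMap ℚ kk (c a i) * e' i) • ((s 0 : ℂ) ^ g D i) := by
    rw [Algebra.smul_def, map_mul, ← mul_assoc]
    have h3 : algebraMap kk ℂ (algebraMap ℚ kk (c a i)) = ((c a i : ℚ) : ℂ) := by
      rw [← IsScalarTower.algebraMap_apply]
      rfl
    have h4 : algebraMap kk ℂ (e' i) = ε i := he' i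
    rw [h3, h4]
  rw [h1]
  exact Submodule.smul_mem _ _ (Submodule.subset_span ⟨(i : ℕ), rfl⟩)

end Pool.Agent.Helper28.IL
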